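import Pool.Agent.H73.IAS3

set_option autoImplicit false

namespace Pool.Agent.Results.MP_48d09b_al.Example

/-- Inner automorphism separability: every non-inner automorphism `φ` of `G` has a
characteristic subgroup `K` of finite index such that the automorphism `gK ↦ φ(g)K` induced on
`G ⧸ K` is not conjugation by an element of `G ⧸ K`. -/
def IAS (G : Type) [Group G] : Prop :=
  ∀ φ : MulAut G, φ ∉ (MulAut.conj : G →* MulAut G).range →
    ∃ (K : Subgroup G) (_ : K.Characteristic), K.FiniteIndex ∧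
      ¬ ∃ d : G ⧸ K, ∀ g : G, ((φ g : G) : G ⧸ K) = d * (g : G ⧸ K) * d⁻¹

theorem result : ∃ (G : Type) (_ : Group G) (_ : (MulAut.conj : G →* MulAut G).range.Normal),
    Group.FG G ∧ Group.ResiduallyFinite G ∧
    Infinite (MulAut G ⧸ (MulAut.conj : G →* MulAut G).range) ∧
    Group.ResiduallyFinite (MulAut G ⧸ (MulAut.conj : G →* MulAut G).range) ∧ ¬ IAS G := by
  have := alternatingGroup.isSimpleGroup (α := Fin 5) (by simp)
  have hS : ∀ s : alternatingGroup (Fin 5), s ≠ 1 → ∃ t, s * t * s⁻¹ ≠ t := by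
    intro s hs
    by_contra c
    push Not at c
    apply hs
    rw [← Subgroup.mem_bot, ← alternatingGroup.center_eq_bot (α := Fin 5) (by simp),
      Subgroup.mem_center_iff]
    exact fun t => (mul_inv_eq_iff_eq_mul.mp (c t)).symm
  have := H73.IAS.fgD hS
  have := H73.IAS.outQ hS
  refine ⟨H73.IAS.DD (alternatingGroup (Fin 5)), inferInstance, H73.IAS.innN _, inferInstance,
    (H73.IAS.good hS).rf, H73.IAS.outInf hS,
    (H73.IAS.good hS).outRF (H73.IAS.chrD hS) (H73.IAS.cenQ hS), fun h => ?_⟩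
  obtain ⟨φ, h1, h2⟩ := H73.IAS.notIAS hS
  obtain ⟨K, _, _, h3⟩ := h φ h1
  obtain ⟨d, hd⟩ := h2 K
  refine h3 ⟨d, fun g => ?_⟩
  have := (QuotientGroup.eq_one_iff _).mpr (hd g)
  rwa [QuotientGroup.mk_mul, QuotientGroup.mk_inv, mul_inv_eq_one] at this

end Pool.Agent.Results.MP_48d09b_al.Example
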